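import Mathlib
import Pool.Agent.R493.SC.ShT
/-!
# Common quadruple patterns at several scales

Say that a set `F` of `4` non-negative integers is carried by the interval `(x, D x]` if for at least
`x / (log x) ^ B` of its elements `n` all the numbers `n + v`, `v ∈ F`, are prime. The question is about
the patterns {0, 2, 6, 8} and {0, 4, 6, 10}. Here, for every `R`: at least the proportion
`(5 / 18) ^ (3 R) - ε` of the `4`-element subsets of EVERY large set `V` of multiples of a constant `P` are
carried by ALL the intervals `(x_1, D x_1], ..., (x_R, D x_R]`, for any large `x_1, ..., x_R` (which may be of very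
different sizes; `V` may depend on them, with `max V ≤ min x_r`).

The theorem on classes of linear forms with the constant `18 / 5`, uniform in constant terms as large as the
variable (`Pool.Agent.Y827.RO.lamRD`), and the combinatorial theorem for one family
(`Pool.Agent.W25.QL.main_gen`) are from the starting files.
-/

namespace Pool.Agent.Results.MP_092512_nt.CommonQuadruples

open Finset Filter

/-- the number of the `n ∈ (x, D x]` such that `n + v` is prime for all `v ∈ F` -/
def count (D : ℕ) (F : Finset ℕ) (x : ℕ) : ℕ :=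
  ((Ioc x (D * x)).filter (fun n : ℕ => ∀ v ∈ F, (n + v).Prime)).card

open Classical in
theorem result (R : ℕ) (ε : ℝ) (hε : 0 < ε) : ∃ n₀ B P D N₀ : ℕ, 0 < P ∧
    ∀ x : Fin R → ℕ, (∀ ρ, N₀ ≤ x ρ) → ∀ V : Finset ℕ, n₀ ≤ V.card →
    (∀ v ∈ V, P ∣ v ∧ ∀ ρ, v ≤ x ρ) →
    ((5 / 18) ^ (3 * R) - ε) * (V.card.choose 4 : ℝ) ≤
      (((V.powersetCard 4).filter (fun F => ∀ ρ, (x ρ : ℝ) / (Real.log (x ρ)) ^ B ≤
        (count D F (x ρ) : ℝ))).card : ℝ) := by
  obtain ⟨n₀, B, P, hP, h⟩ := Pool.Agent.R493.SC.shiftTuples R 3 ε hε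
  obtain ⟨D, N₀, h1⟩ := h 1
  refine ⟨n₀, B, P, D, N₀, hP, fun x hx V hV hVd => ?_⟩
  have h2 := h1 (fun _ => 1) (fun _ => 1) x (fun ρ => ⟨le_rfl, le_rfl, Nat.coprime_one_right 1, hx ρ⟩) V hV
    (fun v hv => ⟨(hVd v hv).1, fun ρ => ⟨one_dvd _, (hVd v hv).2 ρ⟩⟩)
  have e : ∀ (F : Finset ℕ) ρ, Pool.Agent.R493.SC.cntT 1 1 D F (x ρ) = count D F (x ρ) := by
    intro F ρ
    unfold Pool.Agent.R493.SC.cntT count
    congr 1
    apply filter_congr
    intro p _
    simp [Nat.modEq_one]
  simp only [e] at h2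
  rw [mul_comm R 3] at h2
  exact h2

end Pool.Agent.Results.MP_092512_nt.CommonQuadruples
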