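import Pool.Agent.R490.PtGap

set_option autoImplicit false

/-!
# Narrow progressions in arbitrary sets of prime or rough quadruples of both shapes
-/

namespace Pool.Agent.Results.MP_092512_nt.NarrowProgressions

open Finset Filter

/-- The `m` such that, for `H = {0, 2, 6, 8}` or for `H = {0, 4, 6, 10}`, all prime factors of the `m + h`,
`h ∈ H`, exceed `m ^ (1 / r)`. For `r ≥ 2` this set contains the smallest members of all prime quadruples of
both shapes. -/
def RoughQuadruples (r : ℕ) : Set ℕ :=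
  {m | ∃ H ∈ ({{0, 2, 6, 8}, {0, 4, 6, 10}} : Finset (Finset ℕ)), ∀ h ∈ H, ∀ p : ℕ, p.Prime → p ∣ m + h →
    (m : ℝ) ^ (1 / (r : ℝ)) < (p : ℝ)}

/-- `m` is a term of an `l`-term arithmetic progression with difference at most `D`, all terms of which
are elements of `A` in `(X, Z]`. -/
def InProgression (A : Set ℕ) (l : ℕ) (D : ℝ) (X Z m : ℕ) : Prop :=
  ∃ s d : ℕ, 1 ≤ d ∧ (d : ℝ) ≤ D ∧ (∀ i < l, s + i * d ∈ A ∧ X < s + i * d ∧ s + i * d ≤ Z) ∧
    ∃ i < l, m = s + i * d

open Classical in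
/-- **Narrow progressions.** Let `θ, ε > 0` and `r, l ≥ 2`. There is an exponent `B` such that for all large
`X`, all `X ^ θ ≤ Y ≤ X` and EVERY set `A` of rough quadruples of the two shapes, for instance the set of all
prime quadruples of both shapes or any subset: all but at most `ε Y / (log X) ^ 4` of the elements of `A` in
`(X, X + Y]` are terms of `l`-term arithmetic progressions with difference at most `(log X) ^ B` all terms of
which are in `A` and in `(X, X + Y]`. -/
theorem result (θ : ℝ) (hθ : 0 < θ) (r : ℕ) (hr : 2 ≤ r) (l : ℕ) (hl : 2 ≤ l) (ε : ℝ) (hε : 0 < ε) :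
    ∃ B : ℕ, ∀ᶠ X : ℕ in atTop, ∀ Y : ℕ, (X : ℝ) ^ θ ≤ Y → Y ≤ X →
      ∀ A : Set ℕ, A ⊆ RoughQuadruples r →
        (((Ioc X (X + Y)).filter (fun m : ℕ =>
          m ∈ A ∧ ¬ InProgression A l (Real.log X ^ B) X (X + Y) m)).card : ℝ) ≤
        ε * (Y / Real.log X ^ 4) := by
  obtain ⟨B, hB⟩ := Pool.Agent.R490.Pt.narU {{0, 2, 6, 8}, {0, 4, 6, 10}} 4 (by norm_num) (by
    intro H hH
    simp only [Finset.mem_insert, Finset.mem_singleton] at hH
    rcases hH with rfl | rfl
    · exact ⟨by decide, Pool.Agent.R490.Tu.adm_qu⟩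
    · exact ⟨by decide, Pool.Agent.R490.Pt.adm_qb⟩) θ hθ r hr l hl ε hε
  refine ⟨B, ?_⟩
  filter_upwards [hB] with X hX Y hXY hYX A hA
  exact hX Y hXY hYX A (fun m hm => hA hm)

end Pool.Agent.Results.MP_092512_nt.NarrowProgressions
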