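import Pool.Agent.R490.PtGap

set_option autoImplicit false

/-!
# Almost prime quadruples of both shapes with one prime member: counts with the factor 2, and the law of the next
-/

namespace Pool.Agent.Results.MP_092512_nt.QuadrupleLaw

open Finset Filter

/-- No `n + h`, `h ∈ H`, has a prime factor `≤ N ^ (1 / r)`. -/
def Rough (H : Finset ℕ) (N r n : ℕ) : Prop :=
  ∀ p : ℕ, p.Prime → (p : ℝ) ≤ (N : ℝ) ^ (1 / (r : ℝ)) → ∀ h ∈ H, ¬ p ∣ n + h

/-- The product of `1 - 4 / p` over the primes `5 < p ≤ N ^ (1 / r)`. -/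
noncomputable def V (N r : ℕ) : ℝ :=
  ∏ p ∈ (Ioc 5 ⌊(N : ℝ) ^ (1 / (r : ℝ))⌋₊).filter Nat.Prime, (1 - ((4 : ℕ) : ℝ) / p)

/-- `V` divided by the product of `1 - 1 / p` over the primes `p ≤ N ^ (1 / r)`. -/
noncomputable def W (N r : ℕ) : ℝ :=
  V N r / ∏ p ∈ (Ioc 0 ⌊(N : ℝ) ^ (1 / (r : ℝ))⌋₊).filter Nat.Prime, (1 - 1 / (p : ℝ))

open Classical in
/-- The rough quadruples with `n` in `(A, A + L]` whose member `n + b` is PRIME. -/
noncomputable def P (H : Finset ℕ) (N r b A L : ℕ) : Finset ℕ :=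
  (Ioc A (A + L)).filter (fun n => (n + b).Prime ∧ Rough H N r n)

open Classical in
/-- The number of the rough quadruples of the same shape starting in `(n, n + 30 T]` with a number congruent to
`n` modulo 30. -/
noncomputable def Next (H : Finset ℕ) (N r T n : ℕ) : ℕ :=
  ((Ioc n (n + 30 * T)).filter (fun l => l % 30 = n % 30 ∧ Rough H N r l)).card

open Classical in
/-- **The law after primes for both shapes.** Let `H = {0, 2, 6, 8}`, `g = 1` or `H = {0, 4, 6, 10}`, `g = 2`, and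
`0 < θ`, `0 < δ ≤ 1`, `x0`, `0 < ε ≤ 1`. There is `r0` such that for every `r ≥ r0` and all large `N`: for each
of the four members `n + b` and all windows `(A, A + L]` with `A + L ≤ X`, `δ X ≤ L`, `X ≥ N ^ θ`: the rough
quadruples in the window whose member `n + b` is PRIME number `g (L / 30) W / log X`, up to the factor `1 + ε`,
so there are twice as many of the second shape, and for exactly the expected proportions of them,
`e ^ (- T V) (T V) ^ j / j!`, there are `j` rough quadruples `l ≡ n` modulo `30` in `(n, n + 30 T]`, as for a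
Poisson process, `T V ≤ x0`. -/
theorem result (H : Finset ℕ) (g : ℕ) (hH : (H = {0, 2, 6, 8} ∧ g = 1) ∨ (H = {0, 4, 6, 10} ∧ g = 2))
    (θ δ : ℝ) (hθ : 0 < θ) (hδ : 0 < δ) (hδ1 : δ ≤ 1)
    (x0 ε : ℝ) (hε : 0 < ε) (hε1 : ε ≤ 1) :
    ∃ r0 : ℕ, 2 ≤ r0 ∧ ∀ r : ℕ, r0 ≤ r → ∀ᶠ N : ℕ in atTop, 0 < W N r ∧
      ∀ b ∈ H, ∀ X : ℕ, (N : ℝ) ^ θ ≤ X →
      ∀ A L : ℕ, δ * X ≤ L → A + L ≤ X →
      |((P H N r b A L).card : ℝ) * Real.log X - (g : ℝ) * (L / ((30 : ℕ) : ℝ) * W N r)| ≤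
        ε * ((g : ℝ) * (L / ((30 : ℕ) : ℝ) * W N r)) ∧
      ∀ T : ℕ, T * V N r ≤ x0 → ∀ J : Finset ℕ,
      |(((P H N r b A L).filter (fun n => Next H N r T n ∈ J)).card : ℝ) -
        (P H N r b A L).card * ∑ j ∈ J, Real.exp (-(T * V N r)) * (T * V N r) ^ j / j.factorial| ≤
        ε * (P H N r b A L).card := by
  rcases hH with ⟨rfl, rfl⟩ | ⟨rfl, rfl⟩
  · exact Pool.Agent.R490.Pt.law 30 5 (fun p hp => Pool.Agent.R490.Pt.pr30 p hp) Pool.Agent.Y879.PR.qa _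
      Pool.Agent.R490.Pt.mem_qa {11} ⟨11, by decide⟩ Pool.Agent.Y879.PR.pat_qa θ δ hθ hδ hδ1 x0 ε hε hε1
  · exact Pool.Agent.R490.Pt.law 30 5 (fun p hp => Pool.Agent.R490.Pt.pr30 p hp) Pool.Agent.Y879.PR.qb _
      Pool.Agent.R490.Pt.mem_qb {7, 13} ⟨7, by decide⟩ Pool.Agent.Y879.PR.pat_qb θ δ hθ hδ hδ1 x0 ε hε hε1

end Pool.Agent.Results.MP_092512_nt.QuadrupleLaw
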