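import Pool.Agent.R490.PtGap

set_option autoImplicit false

/-!
# Almost prime quadruples of both shapes: the law of the spacings in all short intervals
-/

namespace Pool.Agent.Results.MP_092512_nt.SpacingLaw

open Finset Filter

/-- `n ≡ c` modulo 30 and no `n + h`, `h ∈ H`, has a prime factor `≤ y`. -/
def Rough (H : Finset ℕ) (c y n : ℕ) : Prop :=
  n % 30 = c ∧ ∀ p : ℕ, p.Prime → p ≤ y → ∀ h ∈ H, ¬ p ∣ n + h

/-- The density of these `n`: the product of `1 - 4 / p` over the primes `5 < p ≤ y`, divided by 30. -/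
noncomputable def V (y : ℕ) : ℝ := (∏ p ∈ (Ioc 5 y).filter Nat.Prime, (1 - ((4 : ℕ) : ℝ) / p)) / ((30 : ℕ) : ℝ)

open Classical in
/-- The number of the `n` in `(u, u + Y]` with `Rough H c y n` for which fewer than `k` of the `T` integers
before `n` have this property, that is, for which the distance from `n` to the `k`-th preceding one is larger
than `T`. -/
noncomputable def D (H : Finset ℕ) (c y k T u Y : ℕ) : ℕ :=
  ((Ioc u (u + Y)).filter (fun n => Rough H c y n ∧
    ((Ico (n - T) n).filter (fun m => Rough H c y m)).card < k)).card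

open Classical in
/-- **The law of the spacings for both shapes.** The quadruples of the shape `{0, 2, 6, 8}` without prime factors
up to `5` are those with `n ≡ 11`, those of the shape `{0, 4, 6, 10}` the ones with `n ≡ 7` or `13` modulo `30`.
For each of the three classes, `θ > 0`, all `k0`, `x0` and `ε > 0` there is `r0` such that for every `r ≥ r0`
and all large `X`, with `y = X ^ (1 / r)`, in EVERY interval `(u, u + Y]` with `Y ≥ X ^ θ`: the distances to the
`k`-th preceding rough quadruple of the class have, in units `1 / V` and up to `ε`, the distribution which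
belongs to a Poisson process. -/
theorem result (H : Finset ℕ) (c : ℕ)
    (hH : (H = {0, 2, 6, 8} ∧ c = 11) ∨ (H = {0, 4, 6, 10} ∧ c = 7) ∨ (H = {0, 4, 6, 10} ∧ c = 13))
    (θ : ℝ) (hθ : 0 < θ) (k0 : ℕ) (x0 ε : ℝ) (hε : 0 < ε) :
    ∃ r0 : ℕ, ∀ r : ℕ, r0 ≤ r → ∀ᶠ X : ℕ in atTop, ∀ y : ℕ, y = ⌊(X : ℝ) ^ (1 / (r : ℝ))⌋₊ →
      ∀ u Y : ℕ, c ≤ u → (X : ℝ) ^ θ ≤ Y → ∀ k T : ℕ, (k ≤ k0 ∨ T * V y ≤ x0) →
        |(D H c y k T u Y : ℝ) - Y * V y *
            ∑ j ∈ range k, Real.exp (-(T * V y)) * (T * V y) ^ j / j.factorial| ≤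
          ε * (Y * V y) := by
  rcases hH with ⟨rfl, rfl⟩ | ⟨rfl, rfl⟩ | ⟨rfl, rfl⟩
  · exact Pool.Agent.R490.Pt.gapPt Pool.Agent.R490.Pt.pat_qa11 (by decide) _ Pool.Agent.R490.Pt.mem_qa θ hθ k0 x0 ε hε
  · exact Pool.Agent.R490.Pt.gapPt Pool.Agent.R490.Pt.pat_qb7 (by decide) _ Pool.Agent.R490.Pt.mem_qb θ hθ k0 x0 ε hε
  · exact Pool.Agent.R490.Pt.gapPt Pool.Agent.R490.Pt.pat_qb13 (by decide) _ Pool.Agent.R490.Pt.mem_qb θ hθ k0 x0 ε hε

end Pool.Agent.Results.MP_092512_nt.SpacingLaw
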